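import Pool.Agent.helper36.PP.SpecA
import Pool.Agent.helper52.MP.NG

/-!
# Row pp:NGA (problem MP_70a088_an): growth of natural maps
-/

set_option autoImplicit false

open Complex Metric Set Filter Topology MeasureTheory MPS

noncomputable section

namespace PPS

theorem NGA : NGA_stmt := by
  intro δ ra hδ hra
  set ρ : ℝ := Real.exp (-δ) with hρ
  have hρ1 : ρ < 1 := by
    rw [hρ, ← Real.exp_zero]
    apply Real.exp_lt_exp.2
    linarith
  set M : ℝ := Real.exp (2 * Real.exp (4000 / (1 - ρ))) with hM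
  have hM0 : 0 < M := Real.exp_pos _
  refine ⟨ra + 1 + 2 * ra * M, by nlinarith [mul_pos hra hM0], ?_⟩
  intro k _ b g i ψ hk hb hb4 hψ u hu
  have : Fact (1 < k) := ⟨by omega⟩
  have hl : i + 1 ≠ i := by simp
  have hbl : b i - b (i + 1) ≠ 0 := sub_ne_zero.2 (fun h => hl (hb h).symm)
  set F : ℂ → ℂ := fun z => (ψ z - b (i + 1)) / (b i - b (i + 1)) with hF
  have hFd : DifferentiableOn ℂ F (ball 0 1) := (hψ.diff.sub_const _).div_const _
  have hFne : ∀ z ∈ ball (0 : ℂ) 1, F z ≠ 0 := by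
    intro z hz
    simp only [hF]
    refine div_ne_zero (sub_ne_zero.2 ?_) hbl
    by_cases hz0 : z = 0
    · rw [hz0, hψ.val]
      exact fun h => hl (hb h).symm
    · exact hψ.av z hz hz0 _
  have hF0 : F 0 = 1 := by
    simp only [hF]
    rw [hψ.val, div_self hbl]
  have hF1 : ∀ z ∈ ball (0 : ℂ) 1, F z = 1 → z = 0 := by
    intro z hz h
    by_contra hz0
    apply hψ.av z hz hz0 i
    simp only [hF] at h
    rw [div_eq_one_iff_eq hbl] at h
    exact sub_left_injective h
  have h2 := MPS.NG_core hFd hFne hF0 hF1 hρ1 u hu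
  rw [← hM] at h2
  have h3 : ψ u = F u * (b i - b (i + 1)) + b (i + 1) := by
    simp only [hF]
    rw [div_mul_cancel₀ _ hbl]
    ring
  rw [h3]
  have h4 : ‖b i - b (i + 1)‖ ≤ 2 * ra := by
    have := norm_sub_le (b i) (b (i + 1))
    linarith [hb4 i, hb4 (i + 1)]
  calc ‖F u * (b i - b (i + 1)) + b (i + 1)‖ ≤ ‖F u * (b i - b (i + 1))‖ + ‖b (i + 1)‖ :=
        norm_add_le _ _
    _ ≤ M * (2 * ra) + ra := by
        rw [norm_mul]
        exact add_le_add (mul_le_mul h2 h4 (norm_nonneg _) hM0.le) (hb4 _)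
    _ < ra + 1 + 2 * ra * M := by linarith

end PPS
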