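import Pool.Agent.helper36.PP.SpecD

/-!
# Row pp:P1W (problem MP_70a088_an): Phase 1 as a black box
-/

set_option autoImplicit false

open Complex Metric Set Filter Topology MeasureTheory MPS

noncomputable section

namespace PPS

/-- restriction of a Phase 1 system to fewer levels -/
theorem P1W_sys {k : ℕ} [NeZero k] {f : Polynomial ℂ} {b : ZMod k → ℂ} {ψ : ℂ → ℂ} {δ : ℝ}
    {A : ℕ → ℝ} {G : ℕ → ℂ → ℂ} {Q Q' : ℕ} (h : Sys1 f b ψ δ A G Q) (hQ : Q' ≤ Q) :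
    Sys1 f b ψ δ A G Q' :=
  ⟨h.a0, fun q hq => h.mono q (hq.trans_le hQ), h.g0, fun q h1 h2 => h.diff q h1 (h2.trans hQ),
    fun q hq => h.rel q (hq.trans_le hQ), fun q hq => h.val q (hq.trans hQ),
    fun q h1 h2 => h.disj q h1 (h2.trans_le hQ)⟩

theorem P1W (hNGA : NGA_stmt) (hPH1 : PH1_stmt) : P1W_stmt := by
  intro n δ ra hn h0 h1 hra
  obtain ⟨R₁, hR₁4, hR₁⟩ := hNGA δ ra h0 hra
  have hn0 : (0 : ℝ) < n := by
    exact_mod_cast (by omega : 0 < n)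
  have hcn : 0 < cn n := by
    unfold cn
    positivity
  refine ⟨R₁, hra.trans hR₁4, δ ^ 3 / cn n, by positivity, ?_⟩
  intro k _ f b g ψ R ε su hR hε
  have hmp0 : MapsTo (ψ 0) (ball 0 (Real.exp (-δ))) (ball 0 R) := by
    intro u hu
    rw [mem_ball_zero_iff] at hu ⊢
    exact (hR₁ k b g 0 (ψ 0) su.hk su.cyc.inj su.hra (su.mx 0).pn u hu.le).trans_le hR
  obtain ⟨G1, hG1⟩ := hPH1 n k f b g ψ ra R ε δ su h0 h1 hmp0 hε
  exact ⟨G1, fun Q hQ => ⟨su, h0, h1, hmp0, P1W_sys hG1 hQ, hQ⟩⟩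

end PPS
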